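import Mathlib
import Pool.Agent.U73.LC.Stm
import Pool.Agent.U913.LS.FACT

/-!
# Project LC (helper73), package TY: the uniform tail in the region (helper390)

If `K ≤ r` (`r = rs a b`) and `K ≤ Z`, then either `r` has a divisor `n` with `K ≤ n ≤ Z²`, or `r` has a prime
divisor `> Z²`, whose square divides `a³ - b²`.
-/

set_option autoImplicit false

namespace Pool.Agent.U390.LC

open Finset
open Pool.Agent.U73.LR Pool.Agent.U73.LS Pool.Agent.U73.LC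

/-- the union bound -/
theorem cnt_union (X : ℝ) (F : Finset ℕ) (P : ℕ → ℤ → ℤ → Prop) :
    cnt X (fun a b => ∃ n ∈ F, P n a b) ≤ ∑ n ∈ F, cnt X (P n) := by
  classical
  induction F using Finset.induction_on with
  | empty =>
    rw [Finset.sum_empty, cnt_def]
    simp
  | insert n F hn ih =>
    rw [Finset.sum_insert hn]
    have h1 : cnt X (fun a b => ∃ m ∈ insert n F, P m a b) ≤
        cnt X (fun a b => P n a b ∨ ∃ m ∈ F, P m a b) := by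
      apply cnt_mono
      rintro a b ⟨m, hm, hP⟩
      rcases Finset.mem_insert.1 hm with h | h
      · left; rw [← h]; exact hP
      · right; exact ⟨m, h, hP⟩
    have h2 := cnt_or X (P n) (fun a b => ∃ m ∈ F, P m a b)
    linarith

theorem cnt_le_box {X : ℝ} {P Q : ℤ → ℤ → Prop} (h : ∀ q ∈ box X, P q.1 q.2 → Q q.1 q.2) :
    cnt X P ≤ cnt X Q := by
  classical
  unfold cnt
  refine Nat.cast_le.2 (Finset.card_le_card ?_)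
  intro q hq
  rw [Finset.mem_filter] at hq ⊢
  exact ⟨hq.1, h q hq.1 hq.2⟩

/-- the least divisor `≥ K` is `≤ K²` or a prime -/
theorem least_div {r : ℕ} {K : ℝ} (hK : 1 ≤ K) (hr : K ≤ r) :
    ∃ n : ℕ, n ∣ r ∧ K ≤ n ∧ ((n : ℝ) ≤ K ^ 2 ∨ n.Prime) := by
  classical
  have hex : ∃ n : ℕ, n ∣ r ∧ K ≤ n := ⟨r, dvd_rfl, hr⟩
  obtain ⟨hn, hKn⟩ := Nat.find_spec hex
  have hmin : ∀ m : ℕ, m < Nat.find hex → m ∣ r → (m : ℝ) < K := by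
    intro m hm hmr
    by_contra hcon
    exact Nat.find_min hex hm ⟨hmr, not_lt.1 hcon⟩
  obtain ⟨n, hn'⟩ : ∃ n, n = Nat.find hex := ⟨_, rfl⟩
  rw [← hn'] at hn hKn hmin
  refine ⟨n, hn, hKn, ?_⟩
  by_cases hp : n.Prime
  · exact Or.inr hp
  left
  have hn1 : 1 ≤ n := by
    have : (1 : ℝ) ≤ n := hK.trans hKn
    exact_mod_cast this
  rcases Nat.eq_or_lt_of_le hn1 with h1 | h1
  · rw [← h1]
    push_cast
    nlinarith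
  · have h2 := Nat.minFac_sq_le_self hn1 hp
    obtain ⟨m, hm⟩ := Nat.minFac_dvd n
    have hq2 : 2 ≤ n.minFac := (Nat.minFac_prime (by omega)).two_le
    have hqm : n.minFac ≤ m := by
      by_contra hcon
      have hcon' : m < n.minFac := not_le.1 hcon
      have : n < n.minFac ^ 2 := by
        calc n = n.minFac * m := hm
          _ < n.minFac * n.minFac := by
            exact Nat.mul_lt_mul_of_pos_left hcon' (by omega)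
          _ = n.minFac ^ 2 := by ring
      omega
    have hmn : m < n := by
      have : 1 ≤ m := by omega
      nlinarith
    have hmr : m ∣ r := (Dvd.intro_left _ hm.symm).trans hn
    have hmK := hmin m hmn hmr
    have h3 : (n : ℝ) ≤ (m : ℝ) * m := by
      have : n ≤ m * m := by
        calc n = n.minFac * m := hm
          _ ≤ m * m := Nat.mul_le_mul_right _ hqm
      exact_mod_cast this
    have hm0 : (0 : ℝ) ≤ m := by positivity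
    nlinarith

theorem a_ne {a b : ℤ} (h : Sm a b) : a ≠ 0 := by
  have h3 : K3 a b := by
    have := sm_sp h Nat.prime_three
    unfold Sp at this
    simpa using this
  rintro rfl
  rcases h3 with ⟨h3, -⟩ | ⟨-, h3, -⟩
  · exact h3 (dvd_zero _)
  · exact h3 (dvd_zero _)

theorem sq_dvd (hfact : S_FACT) {a b : ℤ} (h : Sm a b) {p : ℕ} (hp : p.Prime) (hd : p ∣ rs a b) :
    (p : ℤ) ^ 2 ∣ a ^ 3 - b ^ 2 := by
  have h1 := (hfact.2 a b h p hp 1).1 (by rwa [pow_one])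
  rcases h1.2 with h2 | h2
  · omega
  · exact (pow_dvd_pow _ (by omega)).trans h2

theorem split (hfact : S_FACT) {Z T K : ℝ} (hK : 1 ≤ K) (hKZ : K ≤ Z) (F : Finset ℕ)
    (hF : ∀ n : ℕ, 1 ≤ n → K ≤ n → (n : ℝ) ≤ Z ^ 2 → n ∈ F) :
    cnt Z (fun a b => Sm a b ∧ |(a : ℝ) ^ 3 - (b : ℝ) ^ 2| ≤ T ^ 6 ∧ K ≤ rs a b) ≤
    (∑ n ∈ F, cnt Z (fun a b => Sm a b ∧ |(a : ℝ) ^ 3 - (b : ℝ) ^ 2| ≤ T ^ 6 ∧ n ∣ rs a b)) +
    cnt Z (fun a b => a ≠ 0 ∧ a ^ 3 ≠ b ^ 2 ∧ ∃ p : ℕ, Z ^ 2 ≤ p ∧ (p : ℤ) ^ 2 ∣ a ^ 3 - b ^ 2) := by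
  have h1 : cnt Z (fun a b => Sm a b ∧ |(a : ℝ) ^ 3 - (b : ℝ) ^ 2| ≤ T ^ 6 ∧ K ≤ rs a b) ≤
      cnt Z (fun a b => (∃ n ∈ F, Sm a b ∧ |(a : ℝ) ^ 3 - (b : ℝ) ^ 2| ≤ T ^ 6 ∧ n ∣ rs a b) ∨
        (a ≠ 0 ∧ a ^ 3 ≠ b ^ 2 ∧ ∃ p : ℕ, Z ^ 2 ≤ p ∧ (p : ℤ) ^ 2 ∣ a ^ 3 - b ^ 2)) := by
    apply cnt_mono
    rintro a b ⟨hs, hT, hr⟩
    have hrp := (hfact.1 a b hs).2.2.2
    obtain ⟨n, hn, hKn, hc⟩ := least_div hK hr
    have hn1 : 1 ≤ n := Nat.pos_of_dvd_of_pos hn hrp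
    by_cases hnZ : (n : ℝ) ≤ Z ^ 2
    · left
      exact ⟨n, hF n hn1 hKn hnZ, hs, hT, hn⟩
    · right
      have hp : n.Prime := by
        rcases hc with hc | hc
        · exfalso
          apply hnZ
          refine hc.trans ?_
          exact pow_le_pow_left₀ (by linarith) hKZ 2
        · exact hc
      exact ⟨a_ne hs, ((sm_iff a b).1 hs).1, n, (not_le.1 hnZ).le, sq_dvd hfact hs hp hn⟩
  refine h1.trans ((cnt_or _ _ _).trans ?_)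
  gcongr
  exact cnt_union Z F _

theorem core (hfact : S_FACT) (h1 : S_PER) (h2 : S_LPS) (h3 : S_GS) {ε : ℝ} (hε : 0 < ε) :
    ∃ C : ℝ, 0 < C ∧ ∀ Z T K : ℝ, 1 ≤ Z → 1 ≤ T → 1 ≤ K → K ≤ Z →
    cnt Z (fun a b => Sm a b ∧ |(a : ℝ) ^ 3 - (b : ℝ) ^ 2| ≤ T ^ 6 ∧ K ≤ rs a b) ≤
      C * (T ^ 5 * K ^ (-1 + ε) + Z ^ (4 + ε)) := by
  classical
  obtain ⟨C1, hC1, P1⟩ := h1
  obtain ⟨C2, hC2, P2⟩ := h2 ε hε
  obtain ⟨C3, hC3, P3, -⟩ := h3 ε hε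
  obtain ⟨C4, hC4, -, P4⟩ := h3 (ε / 2) (by linarith)
  refine ⟨C1 * C3 + C1 * C4 + C2, by positivity, fun Z T K hZ hT hK hKZ => ?_⟩
  have hZ0 : 0 < Z := by linarith
  have hT0 : 0 < T := by linarith
  have hK0 : 0 < K := by linarith
  obtain ⟨F, hFdef⟩ : ∃ F : Finset ℕ, F = (Finset.Icc 1 ⌊Z ^ 2⌋₊).filter (fun n : ℕ => K ≤ (n : ℝ)) :=
    ⟨_, rfl⟩
  have hF : ∀ n : ℕ, 1 ≤ n → K ≤ n → (n : ℝ) ≤ Z ^ 2 → n ∈ F := by
    intro n hn hKn hnZ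
    rw [hFdef, Finset.mem_filter, Finset.mem_Icc]
    exact ⟨⟨hn, Nat.le_floor hnZ⟩, hKn⟩
  have hF' : ∀ n ∈ F, 1 ≤ n ∧ K ≤ (n : ℝ) ∧ (n : ℝ) ≤ Z ^ 2 := by
    intro n hn
    rw [hFdef, Finset.mem_filter, Finset.mem_Icc] at hn
    exact ⟨hn.1.1, hn.2, (Nat.le_floor_iff (by positivity)).1 hn.1.2⟩
  have hcard : (F.card : ℝ) ≤ Z ^ 2 := by
    have g1 : F.card ≤ ⌊Z ^ 2⌋₊ := by
      rw [hFdef]
      refine (Finset.card_filter_le _ _).trans ?_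
      rw [Nat.card_Icc]
      omega
    calc (F.card : ℝ) ≤ (⌊Z ^ 2⌋₊ : ℝ) := by exact_mod_cast g1
      _ ≤ Z ^ 2 := Nat.floor_le (by positivity)
  have e1 := split (T := T) hfact hK hKZ F hF
  -- the primes `> Z²`
  have e2 := P2 Z (Z ^ 2) hZ (one_le_pow₀ hZ)
  have e2' : C2 * Z ^ (8 + ε) / (Z ^ 2) ^ 2 = C2 * Z ^ (4 + ε) := by
    have : Z ^ (8 + ε) = Z ^ (4 + ε) * (Z ^ 2) ^ 2 := by
      rw [← pow_mul, ← Real.rpow_natCast, ← Real.rpow_add hZ0]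
      congr 1
      push_cast
      ring
    rw [this]
    field_simp
  rw [e2'] at e2
  -- the sum over `F`
  have e3 : ∑ n ∈ F, cnt Z (fun a b => Sm a b ∧ |(a : ℝ) ^ 3 - (b : ℝ) ^ 2| ≤ T ^ 6 ∧ n ∣ rs a b) ≤
      ∑ n ∈ F, C1 * 2 ^ n.primeFactors.card * (T ^ 5 / ((n : ℝ) * ∏ p ∈ n.primeFactors, (p : ℝ)) + Z ^ 2) :=
    Finset.sum_le_sum fun n hn => P1 Z T n hZ hT (hF' n hn).1
  have e4 : ∑ n ∈ F, C1 * 2 ^ n.primeFactors.card *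
      (T ^ 5 / ((n : ℝ) * ∏ p ∈ n.primeFactors, (p : ℝ)) + Z ^ 2) =
      C1 * T ^ 5 * (∑ n ∈ F, (2 : ℝ) ^ n.primeFactors.card / ((n : ℝ) * ∏ p ∈ n.primeFactors, (p : ℝ))) +
      C1 * Z ^ 2 * ∑ n ∈ F, (2 : ℝ) ^ n.primeFactors.card := by
    rw [Finset.mul_sum, Finset.mul_sum, ← Finset.sum_add_distrib]
    refine Finset.sum_congr rfl fun n _ => ?_
    ring
  have e5 := P3 K F hK fun n hn => (hF' n hn).2.1
  have e6 : ∑ n ∈ F, (2 : ℝ) ^ n.primeFactors.card ≤ Z ^ 2 * (C4 * Z ^ ε) := by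
    have g1 : ∀ n ∈ F, (2 : ℝ) ^ n.primeFactors.card ≤ C4 * Z ^ ε := by
      intro n hn
      refine (P4 n (hF' n hn).1).trans ?_
      gcongr
      have : Z ^ ε = (Z ^ 2) ^ (ε / 2) := by
        rw [← Real.rpow_natCast, ← Real.rpow_mul hZ0.le]
        congr 1
        push_cast
        ring
      rw [this]
      exact Real.rpow_le_rpow (by positivity) (hF' n hn).2.2 (by linarith)
    calc ∑ n ∈ F, (2 : ℝ) ^ n.primeFactors.card ≤ ∑ n ∈ F, C4 * Z ^ ε := Finset.sum_le_sum g1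
      _ = F.card * (C4 * Z ^ ε) := by rw [Finset.sum_const, nsmul_eq_mul]
      _ ≤ Z ^ 2 * (C4 * Z ^ ε) := by
        gcongr
  have e7 : Z ^ 2 * (Z ^ 2 * (C4 * Z ^ ε)) = C4 * Z ^ (4 + ε) := by
    have : Z ^ (4 + ε) = Z ^ 4 * Z ^ ε := by
      rw [Real.rpow_add hZ0]
      congr 1
      exact_mod_cast Real.rpow_natCast Z 4
    rw [this]
    ring
  have e8 : C1 * T ^ 5 * (∑ n ∈ F, (2 : ℝ) ^ n.primeFactors.card /
      ((n : ℝ) * ∏ p ∈ n.primeFactors, (p : ℝ))) ≤ C1 * T ^ 5 * (C3 * K ^ (-1 + ε)) := by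
    gcongr
  have e9 : C1 * Z ^ 2 * ∑ n ∈ F, (2 : ℝ) ^ n.primeFactors.card ≤ C1 * (C4 * Z ^ (4 + ε)) := by
    calc C1 * Z ^ 2 * ∑ n ∈ F, (2 : ℝ) ^ n.primeFactors.card ≤ C1 * Z ^ 2 * (Z ^ 2 * (C4 * Z ^ ε)) := by
          gcongr
      _ = C1 * (Z ^ 2 * (Z ^ 2 * (C4 * Z ^ ε))) := by ring
      _ = _ := by rw [e7]
  have p1 : 0 ≤ T ^ 5 * K ^ (-1 + ε) := by positivity
  have p2 : 0 ≤ Z ^ (4 + ε) := by positivity
  have e10 : C1 * T ^ 5 * (C3 * K ^ (-1 + ε)) = C1 * C3 * (T ^ 5 * K ^ (-1 + ε)) := by ring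
  rw [e10] at e8
  have e11 : (C1 * C3 + C1 * C4 + C2) * (T ^ 5 * K ^ (-1 + ε) + Z ^ (4 + ε)) =
      C1 * C3 * (T ^ 5 * K ^ (-1 + ε)) + C1 * (C4 * Z ^ (4 + ε)) + C2 * Z ^ (4 + ε) +
      ((C1 * C4 + C2) * (T ^ 5 * K ^ (-1 + ε)) + C1 * C3 * Z ^ (4 + ε)) := by ring
  have p3 : 0 ≤ (C1 * C4 + C2) * (T ^ 5 * K ^ (-1 + ε)) + C1 * C3 * Z ^ (4 + ε) := by positivity
  rw [e11]
  linarith

/-- in the box `|a³ - b²| ≤ (2 Z)⁶` -/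
theorem box_le {Z : ℝ} (hZ : 1 ≤ Z) {q : ℤ × ℤ} (hq : q ∈ box Z) :
    |(q.1 : ℝ) ^ 3 - (q.2 : ℝ) ^ 2| ≤ (2 * Z) ^ 6 := by
  have hb : |(q.1 : ℝ)| ≤ Z ^ 2 ∧ |(q.2 : ℝ)| ≤ Z ^ 3 := by
    unfold Pool.Agent.U73.LR.box at hq
    rw [Finset.mem_product, Finset.mem_Icc, Finset.mem_Icc] at hq
    obtain ⟨⟨h1, h2⟩, h3, h4⟩ := hq
    constructor
    · rw [abs_le]
      have f1 : ((q.1 : ℤ) : ℝ) ≤ (⌊Z ^ 2⌋ : ℝ) := by exact_mod_cast h2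
      have f2 : (-(⌊Z ^ 2⌋ : ℤ) : ℝ) ≤ (q.1 : ℝ) := by exact_mod_cast h1
      have f3 := Int.floor_le (Z ^ 2)
      constructor <;> linarith
    · rw [abs_le]
      have f1 : ((q.2 : ℤ) : ℝ) ≤ (⌊Z ^ 3⌋ : ℝ) := by exact_mod_cast h4
      have f2 : (-(⌊Z ^ 3⌋ : ℤ) : ℝ) ≤ (q.2 : ℝ) := by exact_mod_cast h3
      have f3 := Int.floor_le (Z ^ 3)
      constructor <;> linarith
  have g1 : |(q.1 : ℝ) ^ 3| ≤ (Z ^ 2) ^ 3 := by
    rw [abs_pow]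
    exact pow_le_pow_left₀ (abs_nonneg _) hb.1 3
  have g2 : |(q.2 : ℝ) ^ 2| ≤ (Z ^ 3) ^ 2 := by
    rw [abs_pow]
    exact pow_le_pow_left₀ (abs_nonneg _) hb.2 2
  have g3 := abs_sub (q.1 ^ 3 : ℝ) (q.2 ^ 2 : ℝ)
  have g4 : (0 : ℝ) ≤ Z ^ 6 := by positivity
  have g5 : (2 * Z) ^ 6 = 64 * Z ^ 6 := by ring
  have g6 : (Z ^ 2) ^ 3 = Z ^ 6 := by ring
  have g7 : (Z ^ 3) ^ 2 = Z ^ 6 := by ring
  rw [g6] at g1
  rw [g7] at g2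
  rw [g5]
  linarith

/-- package TY: the uniform tail in the region -/
theorem ty_of (hfact : S_FACT) : S_PER → S_LPS → S_GS → S_TY := by
  intro h1 h2 h3 ε hε
  obtain ⟨C, hC, H⟩ := core hfact h1 h2 h3 hε
  refine ⟨33 * C, by positivity, fun Z T K hZ hT hK => ?_⟩
  have hZ0 : 0 < Z := by linarith
  have hT0 : 0 < T := by linarith
  have hK0 : 0 < K := by linarith
  obtain ⟨T', hT'⟩ : ∃ T', T' = min T (2 * Z) := ⟨_, rfl⟩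
  have hT1 : 1 ≤ T' := by rw [hT']; exact le_min hT (by linarith)
  have hTT : T' ≤ T := by rw [hT']; exact min_le_left _ _
  have hTZ : T' ≤ 2 * Z := by rw [hT']; exact min_le_right _ _
  have hT'0 : 0 < T' := by linarith
  have a1 : cnt Z (fun a b => Sm a b ∧ |(a : ℝ) ^ 3 - (b : ℝ) ^ 2| ≤ T ^ 6 ∧ K ≤ rs a b) ≤
      cnt Z (fun a b => Sm a b ∧ |(a : ℝ) ^ 3 - (b : ℝ) ^ 2| ≤ T' ^ 6 ∧ K ≤ rs a b) := by
    apply cnt_le_box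
    rintro q hq ⟨b1, b2, b3⟩
    refine ⟨b1, ?_, b3⟩
    have := box_le hZ hq
    rw [hT']
    rcases le_total T (2 * Z) with h | h
    · rw [min_eq_left h]; exact b2
    · rw [min_eq_right h]; exact this
  have p1 : 0 ≤ T ^ 5 * K ^ (-1 + ε) := by positivity
  have p2 : 0 ≤ Z ^ (4 + ε) := by positivity
  rcases le_total K Z with hKZ | hKZ
  · have a2 := H Z T' K hZ hT1 hK hKZ
    have a3 : T' ^ 5 * K ^ (-1 + ε) ≤ T ^ 5 * K ^ (-1 + ε) := by gcongr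
    calc _ ≤ _ := a1
      _ ≤ _ := a2
      _ ≤ C * (T ^ 5 * K ^ (-1 + ε) + Z ^ (4 + ε)) := by gcongr
      _ ≤ 33 * C * (T ^ 5 * K ^ (-1 + ε) + Z ^ (4 + ε)) := by
        have : 0 ≤ C * (T ^ 5 * K ^ (-1 + ε) + Z ^ (4 + ε)) := by positivity
        linarith
  · have a2 := H Z T' Z hZ hT1 hZ le_rfl
    have a3 : cnt Z (fun a b => Sm a b ∧ |(a : ℝ) ^ 3 - (b : ℝ) ^ 2| ≤ T' ^ 6 ∧ K ≤ rs a b) ≤
        cnt Z (fun a b => Sm a b ∧ |(a : ℝ) ^ 3 - (b : ℝ) ^ 2| ≤ T' ^ 6 ∧ Z ≤ rs a b) := by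
      apply cnt_mono
      rintro a b ⟨b1, b2, b3⟩
      exact ⟨b1, b2, hKZ.trans b3⟩
    have a4 : T' ^ 5 * Z ^ (-1 + ε) ≤ 32 * Z ^ (4 + ε) := by
      have g1 : Z ^ (4 + ε) = Z ^ 5 * Z ^ (-1 + ε) := by
        rw [← Real.rpow_natCast, ← Real.rpow_add hZ0]
        congr 1
        push_cast
        ring
      rw [g1]
      calc T' ^ 5 * Z ^ (-1 + ε) ≤ (2 * Z) ^ 5 * Z ^ (-1 + ε) := by gcongr
        _ = 32 * (Z ^ 5 * Z ^ (-1 + ε)) := by ring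
    calc _ ≤ _ := a1
      _ ≤ _ := a3
      _ ≤ _ := a2
      _ ≤ C * (32 * Z ^ (4 + ε) + Z ^ (4 + ε)) := by gcongr
      _ = 33 * C * Z ^ (4 + ε) := by ring
      _ ≤ 33 * C * (T ^ 5 * K ^ (-1 + ε) + Z ^ (4 + ε)) := by
        gcongr
        linarith

theorem t_TY : S_PER → S_LPS → S_GS → S_TY := ty_of Pool.Agent.U913.LS.t_FACT

end Pool.Agent.U390.LC
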